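import Pool.Agent.H.MP_e3bf5d_lc.A
import Pool.Agent.Lib.helper21.CFG

set_option autoImplicit false
set_option linter.unusedSimpArgs false
set_option linter.unusedVariables false

/-! Real-time pushdown recognition of context-free languages, and label languages of pushdown runs. -/

namespace Pool.Agent.H.MP_a569f2_lc

open Pool.Agent.Lib.helper21.CFG Pool.Agent.H.MP_e3bf5d_lc List Symbol

section
variable {T N : Type}

inductive Lc (R : Set (ContextFreeRule T N)) (α : List (Symbol T N)) : Symbol T N → List T → Prop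
  | base {p X q y} : α = p ++ X :: q → Gen R p [] → Gen R q y → Lc R α X y
  | step {r p X q y z} : r ∈ R → r.output = p ++ X :: q → Gen R p [] → Gen R q y →
      Lc R α (nonterminal r.input) z → Lc R α X (y ++ z)

variable {R : Set (ContextFreeRule T N)}

theorem Lc.sound {α X y} (h : Lc R α X y) : ∀ x, Gen R [X] x → Gen R α (x ++ y) := by
  induction h with
  | base e a b => exact fun x c => e ▸ a.append (c.append b)
  | step r e a b _ ih => exact fun x c => append_assoc .. ▸ ih _ (.one r (e ▸ a.append (c.append b)))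

theorem Lc.complete {α w} (h : Gen R α w) : ∀ a v, w = a :: v → Lc R α (terminal a) v := by
  induction h with
  | nil => nofun
  | ter t h => rintro _ _ ⟨⟩; exact .base (p := []) rfl .nil h
  | @nt r l w w' hr h1 h2 ih1 ih2 =>
    obtain _ | ⟨a, w⟩ := w
    · intro a v e
      have := ih2 a v e
      generalize terminal a = X at this
      clear e
      induction this with
      | base e a b => exact .base (p := _ :: _) (congrArg _ e) (.nt hr h1 a) b
      | step r e a b _ ih => exact .step r e a b ih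
    · rintro _ _ ⟨⟩
      have := ih1 a w rfl
      generalize terminal a = X at this
      clear h1 ih1
      induction this with
      | base e a b => exact .step hr e a b (.base (p := []) rfl .nil h2)
      | step r e a b _ ih => rw [append_eq, append_assoc]; exact .step r e a b ih

inductive Rt {Γ : Type} (D : Set (Γ × T × List Γ)) : List Γ → List T → Prop
  | nil : Rt D [] []
  | cons {γ a δ α w} : (γ, a, δ) ∈ D → Rt D (δ ++ α) w → Rt D (γ :: α) (a :: w)

theorem Rt.app {Γ : Type} {D : Set (Γ × T × List Γ)} {α w β v} (h : Rt D α w) (h' : Rt D β v) :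
    Rt D (α ++ β) (w ++ v) := by
  induction h with
  | nil => exact h'
  | cons a _ ih => exact .cons a (append_assoc .. ▸ ih)

theorem rt [Finite T] {K : Language T} (h : K.IsContextFree) : ∃ (Γ : Type) (_ : Finite Γ)
    (D : Set (Γ × T × List Γ)) (I : Set (List Γ)), D.Finite ∧ I.Finite ∧ ∀ w, w ∈ K ↔ ∃ δ ∈ I, Rt D δ w := by
  obtain ⟨g, rfl⟩ := h
  let R : Set (ContextFreeRule T g.NT) := g.rules
  let Fm := {l | ∃ l' ∈ insert [nonterminal g.initial] ((·.output) '' R), l <:+ l'}
  have : Finite Fm := (((g.rules.finite_toSet.image _).insert _).biUnion fun l _ =>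
    (l.tails.finite_toSet.subset fun _ a => (mem_tails ..).2 a : {l' | l' <:+ l}.Finite)).subset
      fun _ ⟨_, a, b⟩ => Set.mem_biUnion a b
  let Lg : Option (Fm × (T ⊕ R)) → Language T := fun γ => γ.elim g.language fun x =>
    {y | Lc R x.1 (x.2.elim terminal fun r => nonterminal r.1.input) y}
  have k0 : ∀ (α : Fm) a v, Gen R α (a :: v) ↔ v ∈ Lg (some (α, .inl a)) := fun α a v =>
    ⟨fun h => Lc.complete h a v rfl, fun h => Lc.sound h [a] (.ter a .nil)⟩
  have k1 : ∀ (α : Fm) X y, Lc R α X y → ∀ a w, y = a :: w → ∃ δ : List _, δ.length ≤ 2 ∧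
      w ∈ (δ.map Lg).prod ∧ ∀ v ∈ (δ.map Lg).prod, Lc R α X (a :: v) := fun α X y h => by
    induction h with
    | @base p X q _ e b c =>
      rintro a w rfl
      obtain ⟨l, s, s'⟩ := α.2
      let β : Fm := ⟨q, l, s, IsSuffix.trans ⟨p ++ [X], by simp [e]⟩ s'⟩
      exact ⟨[some (β, .inl a)], by simp, by simpa using (k0 β a w).1 c,
        fun v t => .base e b ((k0 β a v).2 (by simpa using t))⟩
    | @step r p X q y z hr e b c d ih =>
      obtain _ | ⟨a, y⟩ := y
      · exact fun a w t => (ih a w t).imp fun _ => And.imp_right (And.imp_right fun s v t =>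
          .step hr e b c (s v t))
      · rintro _ _ ⟨⟩
        let β : Fm := ⟨q, _, .inr ⟨r, hr, rfl⟩, p ++ [X], by simp [e]⟩
        refine ⟨[some (β, .inl a), some (α, .inr ⟨r, hr⟩)], le_rfl, ?_, fun v t => ?_⟩
        · simpa using Language.append_mem_mul (m := Lg (some (α, .inr ⟨r, hr⟩))) ((k0 β a y).1 c) d
        · obtain ⟨y, s, z, s', rfl⟩ := Language.mem_mul.1 (by simpa using t)
          exact .step hr e b ((k0 β a y).2 s) s'
  have k2 : ∀ γ a w, a :: w ∈ Lg γ → ∃ δ : List _, δ.length ≤ 2 ∧ w ∈ (δ.map Lg).prod ∧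
      ∀ v ∈ (δ.map Lg).prod, a :: v ∈ Lg γ := by
    rintro (_ | x) a w h
    · let β : Fm := ⟨_, _, .inl rfl, suffix_rfl⟩
      exact ⟨[some (β, .inl a)], by simp, by simpa using (k0 β a w).1 ((mem_language_iff_gen ..).1 h),
        fun v t => (mem_language_iff_gen ..).2 ((k0 β a v).2 (by simpa using t))⟩
    · exact k1 _ _ _ h a w rfl
  let D := {x : _ × T × List _ | x.2.2.length ≤ 2 ∧ ∀ v ∈ (x.2.2.map Lg).prod, x.2.1 :: v ∈ Lg x.1}
  have k3 : ∀ α w, Rt D α w → w ∈ (α.map Lg).prod := fun _ _ h => by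
    induction h with
    | nil => exact (Language.mem_one _).2 rfl
    | cons a _ ih =>
      rw [map_append, prod_append] at ih
      obtain ⟨u, b, v, c, rfl⟩ := Language.mem_mul.1 ih
      exact Language.append_mem_mul (a.2 u b) c
  have k4 : ∀ m (δ : List _) (w : List T), w.length < m → w ∈ (δ.map Lg).prod → ∃ δ' : List _,
      δ'.length ≤ δ.length ∧ (∀ v ∈ (δ'.map Lg).prod, v ∈ (δ.map Lg).prod) ∧ Rt D δ' w := fun m => by
    induction m with
    | zero => nofun
    | succ m ih =>
      intro δ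
      induction δ with
      | nil => exact fun w _ h => ⟨[], le_rfl, fun _ => id, (Language.mem_one _).1 h ▸ .nil⟩
      | cons γ δ ih' =>
        intro w l h
        obtain ⟨u, b, v, c, rfl⟩ := Language.mem_mul.1 h
        rw [length_append] at l
        obtain ⟨δ', d1, d2, d3⟩ := ih' v (by omega) c
        obtain _ | ⟨a, u⟩ := u
        · exact ⟨δ', d1.trans (Nat.le_succ _), fun x t => Language.append_mem_mul b (d2 x t), d3⟩
        · obtain ⟨ε, e1, e2, e3⟩ := k2 _ _ _ b
          obtain ⟨ε', f1, f2, f3⟩ := ih ε u (by rw [length_cons] at l; omega) e2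
          refine ⟨γ :: δ', Nat.succ_le_succ d1, fun x t => ?_,
            .cons ⟨f1.trans e1, fun x t => e3 x (f2 x t)⟩ (f3.app d3)⟩
          obtain ⟨y, s, z, s', rfl⟩ := Language.mem_mul.1 t
          exact Language.append_mem_mul s (d2 z s')
  refine ⟨_, inferInstance, D, {δ | δ.length ≤ 1 ∧ ∀ v ∈ (δ.map Lg).prod, v ∈ g.language},
    (Set.finite_univ.prod (Set.finite_univ.prod (finite_length_le _ 2))).subset fun _ a =>
      ⟨trivial, trivial, a.1⟩, (finite_length_le _ 1).subset fun _ a => a.1, fun w =>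
        ⟨fun h => ?_, fun ⟨δ, a, b⟩ => a.2 w (k3 _ _ b)⟩⟩
  obtain ⟨δ, a, b, c⟩ := k4 _ [none] w (Nat.lt_succ_self _) (by simpa)
  exact ⟨δ, ⟨a, fun v t => (by simpa using b v t : v ∈ Lg none)⟩, c⟩
end

theorem cf {R S Γ : Type} [Finite R] [Finite S] [Finite Γ] (top : R → Γ) (src tgt : R → S)
    (push : R → List Γ) (p : S) (Z : Γ) (F : Set S) :
    Language.IsContextFree {μ | ∃ f ∈ F, Cp top src tgt push p [Z] μ f} := by
  let nt := fun x : S × Γ × S => (nonterminal (some x) : Symbol R _)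
  let P : Set (ContextFreeRule R (Option (S × Γ × S))) := (fun f => ⟨none, [nt (p, Z, f)]⟩) '' F ∪
    {x | ∃ r l m, l.map (·.2.1) = push r ∧ Ch 0 (tgt r) l m ∧
      x = ⟨some (src r, top r, m), terminal r :: l.map nt⟩}
  have fP : P.Finite := by
    refine (F.toFinite.image _).union ((Set.finite_iUnion fun r => ((finite_length_eq (S × Γ × S)
      (push r).length).prod Set.finite_univ).image fun x : _ × S =>
        ⟨some (src r, top r, x.2), terminal r :: x.1.map nt⟩).subset ?_)
    rintro _ ⟨r, l, m, a, -, rfl⟩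
    exact Set.mem_iUnion.2 ⟨r, (l, m), ⟨by simp [← a], trivial⟩, rfl⟩
  refine ⟨⟨_, none, fP.toFinset⟩, Language.ext fun μ => ?_⟩
  rw [mem_language_iff_gen, Set.Finite.coe_toFinset]
  let I := fun (X : Option (S × Γ × S)) μ => X.elim (∃ f ∈ F, Cp top src tgt push p [Z] μ f)
    fun x => Cp top src tgt push x.1 [x.2.1] μ x.2.2
  have k1 : ∀ l p q μ, Ch 0 p l q → Sem I (l.map nt) μ → Cp top src tgt push p (l.map (·.2.1)) μ q :=
    fun l => by
      induction l with
      | nil => rintro _ _ _ rfl ⟨⟩; exact .nil _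
      | cons x l ih => rintro _ _ _ ⟨rfl, -, a⟩ (_ | _ | ⟨b, c⟩); exact Cp.app b (ih _ _ _ a c)
  have k2 : ∀ p α μ q, Cp top src tgt push p α μ q → ∃ l : List (S × Γ × S), l.map (·.2.1) = α ∧
      Ch 0 p l q ∧ Gen P (l.map nt) μ := fun _ _ _ _ h => by
    induction h with
    | nil => exact ⟨[], rfl, rfl, .nil⟩
    | @cons r _ _ _ _ ih =>
      obtain ⟨_, a, b, c⟩ := ih
      obtain ⟨l, l', rfl, a1, rfl⟩ := map_eq_append_iff.1 a
      obtain ⟨m, b1, b2⟩ := b.split
      rw [map_append] at c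
      obtain ⟨u, v, rfl, c1, c2⟩ := c.split
      exact ⟨(src r, top r, m) :: l', rfl, ⟨rfl, le_rfl, b2⟩,
        .nt (r := ⟨_, _⟩) (.inr ⟨r, l, m, a1, b1, rfl⟩) (.ter r c1) c2⟩
  constructor
  · intro h
    obtain ⟨u, _, a, ⟨⟩, rfl⟩ := sem_nt.1 (h.sound (I := I) (by
      rintro _ (⟨f, a, rfl⟩ | ⟨r, l, m, a, b, rfl⟩) w c
      · exact ⟨f, a, k1 [(p, Z, f)] _ _ _ ⟨rfl, le_rfl, rfl⟩ c⟩
      · obtain ⟨_, c', rfl⟩ := sem_ter.1 c
        exact .cons (by simpa [a] using k1 _ _ _ _ b c')))
    rwa [append_nil]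
  · rintro ⟨f, a, b⟩
    obtain ⟨_ | ⟨⟨_, _, _⟩, _ | _⟩, ⟨⟩, ⟨rfl, -, e⟩, c⟩ := k2 _ _ _ _ b
    cases e
    exact .one (.inl ⟨_, a, rfl⟩) c

end Pool.Agent.H.MP_a569f2_lc
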